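import Pool.Agent.Y472.K.DefsX

/-!
# The Turk's head links: expansion of the logarithm of the summand
-/

set_option autoImplicit false

namespace Pool.Agent.Y363.TKX

open Finset Filter Topology MeasureTheory Pool.Agent.W711.HT Pool.Agent.Y472.K
open scoped Real

/-! ### Products -/

section gen

variable {ι : Type} [Fintype ι] {ws : ι → ℝ} {K : ℕ}

theorem lx_mul {Ψ₁ Ψ₂ : (ι → ℂ) × ℂ → ℂ} {T₁ T₂ : ℕ → (ι → ℕ) → ℝ → ℂ}
    (h₁ : LX Ψ₁ ws K T₁) (h₂ : LX Ψ₂ ws K T₂) :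
    LX (fun w => Ψ₁ w + Ψ₂ w) ws K (fun N k x => T₁ N k x * T₂ N k x) := by
  obtain ⟨τ₁, a₁, r₁, C₁, hr₁, H₁⟩ := h₁
  obtain ⟨τ₂, a₂, r₂, C₂, hr₂, H₂⟩ := h₂
  refine ⟨fun l w => τ₁ l w + τ₂ l w, fun l hl => (a₁ l hl).add (a₂ l hl), min r₁ r₂, C₁ + C₂,
    lt_min hr₁ hr₂, ?_⟩
  filter_upwards [H₁, H₂] with N h1 h2 k x hk hx
  obtain ⟨e₁, he₁, t₁⟩ := h1 k x (fun i => (hk i).trans_le (min_le_left _ _))
    (hx.trans_le (min_le_left _ _))
  obtain ⟨e₂, he₂, t₂⟩ := h2 k x (fun i => (hk i).trans_le (min_le_right _ _))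
    (hx.trans_le (min_le_right _ _))
  refine ⟨e₁ + e₂, ?_, ?_⟩
  · refine (norm_add_le _ _).trans ?_
    rw [add_div]
    exact add_le_add he₁ he₂
  · rw [t₁, t₂, ← Complex.exp_add]
    congr 1
    simp_rw [add_div]
    rw [Finset.sum_add_distrib]
    ring

theorem lx_one : LX (fun _ => 0) ws K (fun _ _ _ => (1 : ℂ)) := by
  refine ⟨fun _ _ => 0, fun _ _ => analyticAt_const, 1, 0, one_pos, ?_⟩
  filter_upwards with N k x _ _
  refine ⟨0, by simp, ?_⟩
  simp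

theorem lx_prod {α : Type} (s : Finset α) (Ψ : α → (ι → ℂ) × ℂ → ℂ)
    (T : α → ℕ → (ι → ℕ) → ℝ → ℂ) (h : ∀ a ∈ s, LX (Ψ a) ws K (T a)) :
    LX (fun w => ∑ a ∈ s, Ψ a w) ws K (fun N k x => ∏ a ∈ s, T a N k x) := by
  classical
  induction s using Finset.induction_on with
  | empty => simpa using lx_one
  | insert a s ha ih =>
    have h1 := lx_mul (h a (mem_insert_self _ _)) (ih fun b hb => h b (mem_insert_of_mem hb))
    simp only [Finset.sum_insert ha, Finset.prod_insert ha]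
    exact h1

/-- only large `N` and points near `ws` matter -/
theorem lx_congr {Ψ Ψ' : (ι → ℂ) × ℂ → ℂ} {T T' : ℕ → (ι → ℕ) → ℝ → ℂ}
    (h : LX Ψ ws K T) (hΨ : ∀ w, Ψ w = Ψ' w)
    (hT : ∀ᶠ N : ℕ in atTop, ∀ k x, T N k x = T' N k x) : LX Ψ' ws K T' := by
  obtain ⟨τ, a, r, C, hr, H⟩ := h
  refine ⟨τ, a, r, C, hr, ?_⟩
  filter_upwards [H, hT] with N h1 h2 k x hk hx
  obtain ⟨e, he, t⟩ := h1 k x hk hx
  exact ⟨e, he, by rw [← h2, t, hΨ]⟩

/-- a function of the variable of the axis with an analytic logarithm -/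
theorem lx_axis {f L : ℂ → ℂ} (hL : AnalyticAt ℂ L 0)
    {r₀ : ℝ} (hr₀ : 0 < r₀) (hf : ∀ x : ℝ, |x| < r₀ → f x = Complex.exp (L x)) :
    LX (fun _ => 0) ws K (fun _ _ x => f x) := by
  obtain ⟨r₁, hr₁, hb⟩ : ∃ r₁ : ℝ, 0 < r₁ ∧ ∀ x : ℝ, |x| < r₁ → ‖L x‖ ≤ ‖L 0‖ + 1 := by
    have h1 : Tendsto (fun x : ℝ => ‖L (x : ℂ)‖) (𝓝 0) (𝓝 ‖L 0‖) := by
      have h2 : ContinuousAt (fun x : ℝ => L (x : ℂ)) 0 := by
        refine ContinuousAt.comp (g := L) (f := fun x : ℝ => (x : ℂ)) ?_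
          Complex.continuous_ofReal.continuousAt
        rw [Complex.ofReal_zero]
        exact hL.continuousAt
      have h3 := h2.norm.tendsto
      rwa [Complex.ofReal_zero] at h3
    have h2 := h1.eventually_le_const (u := ‖L 0‖ + 1) (by linarith)
    obtain ⟨r₁, hr₁, h3⟩ := Metric.eventually_nhds_iff.1 h2
    refine ⟨r₁, hr₁, fun x hx => h3 ?_⟩
    rwa [Real.dist_eq, sub_zero]
  rcases Nat.eq_zero_or_pos K with hK | hK
  · subst hK
    refine ⟨fun _ _ => 0, fun l hl => absurd hl (Nat.not_lt_zero l), min r₀ r₁, ‖L 0‖ + 1,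
      lt_min hr₀ hr₁, ?_⟩
    filter_upwards with N k x _ hx
    refine ⟨L x, ?_, ?_⟩
    · rw [pow_zero, div_one]
      exact hb x (hx.trans_le (min_le_right _ _))
    · rw [hf x (hx.trans_le (min_le_left _ _))]
      simp
  · refine ⟨fun l w => if l = 0 then L w.2 else 0, ?_, r₀, 0, hr₀, ?_⟩
    · intro l _
      by_cases hl : l = 0
      · simp only [hl, if_true]
        refine AnalyticAt.comp (g := L) (f := fun w : (ι → ℂ) × ℂ => w.2) ?_ analyticAt_snd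
        have e : (cst (ws, (0 : ℝ))).2 = 0 := by simp [cst]
        rw [e]
        exact hL
      · simp only [hl, if_false]
        exact analyticAt_const
    · filter_upwards with N k x _ hx
      refine ⟨0, by simp, ?_⟩
      rw [hf x hx]
      congr 1
      rw [Finset.sum_eq_single_of_mem 0 (mem_range.2 hK)]
      · simp [cst]
      · intro l _ hl
        simp [hl]

end gen

/-! ### The factors -/

section fac

variable {ι : Type} [Fintype ι] {ws : ι → ℝ} {K : ℕ}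

theorem an_coord (p : ι) (w₀ : (ι → ℂ) × ℂ) :
    AnalyticAt ℂ (fun w : (ι → ℂ) × ℂ => w.1 p) w₀ :=
  ((ContinuousLinearMap.proj (R := ℂ) (φ := fun _ : ι => ℂ) p).comp
    (ContinuousLinearMap.fst ℂ (ι → ℂ) ℂ)).analyticAt w₀

omit [Fintype ι] in
theorem cst_fst (p : ι) (v : (ι → ℝ) × ℝ) : (cst v).1 p = (v.1 p : ℂ) := rfl

omit [Fintype ι] in
theorem cst_snd (v : (ι → ℝ) × ℝ) : (cst v).2 = (v.2 : ℂ) := rfl

/-- analyticity of the products of sines -/
theorem an_sd {L : ℂ → ℂ} {p q : ι} (hL : AnalyticAt ℂ L ((ws p - ws q : ℝ) : ℂ)) :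
    AnalyticAt ℂ (fun w : (ι → ℂ) × ℂ => L (w.1 p - w.1 q)) (cst (ws, 0)) := by
  refine AnalyticAt.comp (g := L) (f := fun w : (ι → ℂ) × ℂ => w.1 p - w.1 q) ?_
    ((an_coord p _).sub (an_coord q _))
  have e : (cst (ws, (0 : ℝ))).1 p - (cst (ws, (0 : ℝ))).1 q = ((ws p - ws q : ℝ) : ℂ) := by
    simp [cst]
  rw [e]
  exact hL

/-- analyticity of the functions of a variable and the variable of the axis -/
theorem an_q {Θ : ℂ → ℂ → ℂ} {p : ι} {y : ℝ}
    (h : AnalyticAt ℂ (fun p : ℂ × ℂ => Θ p.1 p.2) ((ws p : ℂ), y * Complex.I)) :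
    AnalyticAt ℂ (fun w : (ι → ℂ) × ℂ => Θ (w.1 p) (w.2 + y * Complex.I)) (cst (ws, 0)) := by
  refine AnalyticAt.comp (g := fun p : ℂ × ℂ => Θ p.1 p.2)
    (f := fun w : (ι → ℂ) × ℂ => (w.1 p, w.2 + y * Complex.I)) ?_
    ((an_coord p _).prod (analyticAt_snd.add analyticAt_const))
  have e : ((cst (ws, (0 : ℝ))).1 p, (cst (ws, (0 : ℝ))).2 + y * Complex.I) =
      ((ws p : ℂ), (y : ℂ) * Complex.I) := by
    simp [cst]
  rw [e]
  exact h

theorem lx_sd {Lx : ℂ → ℂ} {σ : ℕ → ℂ → ℂ}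
    (hσ : ∀ k, ∀ δ : ℝ, 0 < δ → δ < 1 → AnalyticAt ℂ (σ k) δ)
    (h : ∀ δ₀ : ℝ, 0 < δ₀ → δ₀ < 1 / 2 → ∀ K : ℕ, ∃ C : ℝ, ∀ᶠ N : ℕ in atTop, ∀ m : ℕ,
      δ₀ * N ≤ m → (m : ℝ) ≤ (1 - δ₀) * N → ∃ e : ℂ, ‖e‖ ≤ C / (N : ℝ) ^ K ∧
        ((√(N : ℝ) : ℝ) : ℂ) / (Sd N m : ℂ) =
          Complex.exp (N * Lx ((m : ℂ) / N) + ∑ k ∈ range K, σ k ((m : ℂ) / N) / (N : ℂ) ^ k + e))
    (p q : ι) (h0 : 0 < ws p - ws q) (h1 : ws p - ws q < 1) :
    LX (fun w => Lx (w.1 p - w.1 q)) ws K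
      (fun N k _ => ((√(N : ℝ) : ℝ) : ℂ) / (Sd N (k p - k q) : ℂ)) := by
  obtain ⟨δ₀, hδ₀⟩ : ∃ δ₀ : ℝ, δ₀ = min (ws p - ws q) (1 - (ws p - ws q)) / 2 := ⟨_, rfl⟩
  have d0 : 0 < δ₀ := by
    rw [hδ₀]
    exact half_pos (lt_min h0 (by linarith))
  have d1 : 2 * δ₀ ≤ ws p - ws q := by
    rw [hδ₀]
    linarith [min_le_left (ws p - ws q) (1 - (ws p - ws q))]
  have d2 : 2 * δ₀ ≤ 1 - (ws p - ws q) := by
    rw [hδ₀]
    linarith [min_le_right (ws p - ws q) (1 - (ws p - ws q))]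
  obtain ⟨C, hC⟩ := h δ₀ d0 (by linarith) K
  refine ⟨fun l w => σ l (w.1 p - w.1 q), fun l _ => an_sd (hσ l _ h0 h1), δ₀ / 2, C,
    half_pos d0, ?_⟩
  filter_upwards [hC, eventually_gt_atTop 0] with N hN hN0 k x hk _
  have hNr : (0 : ℝ) < N := by exact_mod_cast hN0
  have kp := abs_lt.1 (hk p)
  have kq := abs_lt.1 (hk q)
  have hle : k q ≤ k p := by
    have h2 : (k q : ℝ) / N < (k p : ℝ) / N := by linarith [kp.1, kq.2]
    have h3 : (k q : ℝ) < k p := (div_lt_div_iff_of_pos_right hNr).1 h2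
    exact_mod_cast h3.le
  have hm : ((k p - k q : ℕ) : ℝ) = (k p : ℝ) - k q := by
    rw [Nat.cast_sub hle]
  have hm2 : ((k p - k q : ℕ) : ℝ) / N = (k p : ℝ) / N - (k q : ℝ) / N := by
    rw [hm, sub_div]
  have hmN : ((k p - k q : ℕ) : ℝ) = ((k p : ℝ) / N - (k q : ℝ) / N) * N := by
    rw [← hm2]
    field_simp
  obtain ⟨e, he, t⟩ := hN (k p - k q)
    (by rw [hmN]; exact mul_le_mul_of_nonneg_right (by linarith [kp.1, kq.2]) hNr.le)
    (by rw [hmN]; exact mul_le_mul_of_nonneg_right (by linarith [kp.2, kq.1]) hNr.le)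
  refine ⟨e, he, ?_⟩
  have e1 : ((k p - k q : ℕ) : ℂ) / N = ((((k p : ℝ) / N : ℝ) : ℂ)) - ((((k q : ℝ) / N : ℝ) : ℂ)) := by
    rw [Nat.cast_sub hle]
    push_cast
    rw [sub_div]
  rw [t, e1]
  rfl

theorem lx_q {Θ : ℂ → ℂ → ℂ} {θ : ℕ → ℂ → ℂ → ℂ} {y r₀ : ℝ} (hr₀ : 0 < r₀)
    (hθ : ∀ k, ∀ t : ℝ, 0 ≤ t → t ≤ 1 →
      AnalyticAt ℂ (fun p : ℂ × ℂ => θ k p.1 p.2) ((t : ℂ), y * Complex.I))
    (h : ∀ K : ℕ, ∃ C : ℝ, ∀ᶠ N : ℕ in atTop, ∀ j i : ℕ, j ≤ i → i ≤ N → ∀ x : ℝ, |x| < r₀ →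
      ∃ e : ℂ, ‖e‖ ≤ C / (N : ℝ) ^ K ∧ Pq N j i (x + y * Complex.I) =
        Complex.exp (N * (Θ ((i : ℂ) / N) (x + y * Complex.I) -
            Θ ((j : ℂ) / N) (x + y * Complex.I)) +
          ∑ k ∈ range K, (θ k ((i : ℂ) / N) (x + y * Complex.I) -
            θ k ((j : ℂ) / N) (x + y * Complex.I)) / (N : ℂ) ^ k + e))
    (p q : ι) (hq0 : 0 ≤ ws q) (hqp : ws q < ws p) (hp1 : ws p < 1) :
    LX (fun w => Θ (w.1 p) (w.2 + y * Complex.I) - Θ (w.1 q) (w.2 + y * Complex.I)) ws K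
      (fun N k x => Pq N (k q) (k p) (x + y * Complex.I)) := by
  obtain ⟨C, hC⟩ := h K
  refine ⟨fun l w => θ l (w.1 p) (w.2 + y * Complex.I) - θ l (w.1 q) (w.2 + y * Complex.I),
    fun l _ => (an_q (hθ l _ (by linarith) hp1.le)).sub (an_q (hθ l _ hq0 (by linarith))),
    min r₀ (min ((ws p - ws q) / 2) (1 - ws p)), C,
    lt_min hr₀ (lt_min (by linarith) (by linarith)), ?_⟩
  filter_upwards [hC, eventually_gt_atTop 0] with N hN hN0 k x hk hx
  have hNr : (0 : ℝ) < N := by exact_mod_cast hN0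
  have hr1 : min r₀ (min ((ws p - ws q) / 2) (1 - ws p)) ≤ (ws p - ws q) / 2 :=
    (min_le_right _ _).trans (min_le_left _ _)
  have hr2 : min r₀ (min ((ws p - ws q) / 2) (1 - ws p)) ≤ 1 - ws p :=
    (min_le_right _ _).trans (min_le_right _ _)
  have kp := abs_lt.1 ((hk p).trans_le hr1)
  have kq := abs_lt.1 ((hk q).trans_le hr1)
  have kp' := abs_lt.1 ((hk p).trans_le hr2)
  have hle : k q ≤ k p := by
    have h2 : (k q : ℝ) / N < (k p : ℝ) / N := by linarith [kp.1, kq.2]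
    have h3 : (k q : ℝ) < k p := (div_lt_div_iff_of_pos_right hNr).1 h2
    exact_mod_cast h3.le
  have hleN : k p ≤ N := by
    have h2 : (k p : ℝ) / N < 1 := by linarith [kp'.2]
    rw [div_lt_one hNr] at h2
    exact_mod_cast h2.le
  obtain ⟨e, he, t⟩ := hN (k q) (k p) hle hleN x (hx.trans_le (min_le_left _ _))
  refine ⟨e, he, ?_⟩
  have e1 : ∀ i, ((k i : ℕ) : ℂ) / N = ((((k i : ℝ) / N : ℝ) : ℂ)) := by
    intro i
    push_cast
    rfl
  rw [t, e1, e1]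
  rfl

theorem lx_v (p q s : ι) :
    LX (fun w => Complex.I * π * ((w.1 p - w.1 q) * w.1 s)) ws K
      (fun N k _ => vN N ^ (((k p : ℤ) - k q) * k s)) := by
  refine ⟨fun _ _ => 0, fun _ _ => analyticAt_const, 1, 0, one_pos, ?_⟩
  filter_upwards [eventually_gt_atTop 0] with N hN0 k x _ _
  have hNc : (N : ℂ) ≠ 0 := by exact_mod_cast hN0.ne'
  refine ⟨0, by simp, ?_⟩
  rw [vN, ← Complex.exp_int_mul]
  congr 1
  simp only [cst, zero_div, Finset.sum_const_zero, add_zero]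
  push_cast
  field_simp

/-- the kernel -/
theorem lx_k {y : ℝ} (hy : 0 < y) :
    LX (fun w => Complex.I * w.2 - y) ws K
      (fun N _ x => Pool.Agent.Y391.CB.kN N (x + y * Complex.I)) := by
  -- the size of the error
  have hto : Tendsto (fun N : ℕ => (N : ℝ) ^ K * Real.exp (-(N * y))) atTop (𝓝 0) := by
    have h1 := (Real.tendsto_pow_mul_exp_neg_atTop_nhds_zero K).comp
      (tendsto_natCast_atTop_atTop.atTop_mul_const hy : Tendsto (fun N : ℕ => (N : ℝ) * y) atTop atTop)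
    have h2 := h1.const_mul ((1 / y) ^ K)
    rw [mul_zero] at h2
    refine h2.congr fun N => ?_
    have e : (1 / y) ^ K * y ^ K = 1 := by
      rw [← mul_pow, one_div, inv_mul_cancel₀ hy.ne', one_pow]
    simp only [Function.comp]
    rw [mul_pow]
    linear_combination ((N : ℝ) ^ K * Real.exp (-(N * y))) * e
  refine ⟨fun _ _ => 0, fun _ _ => analyticAt_const, 1, 4, one_pos, ?_⟩
  filter_upwards [hto.eventually_le_const (by norm_num : (0 : ℝ) < 1 / 2),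
    eventually_gt_atTop 0] with N hN hN0 k x _ _
  have hNr : (0 : ℝ) < N := by exact_mod_cast hN0
  have hN1 : (1 : ℝ) ≤ (N : ℝ) ^ K := one_le_pow₀ (by exact_mod_cast hN0)
  obtain ⟨q, hq⟩ : ∃ q : ℂ, q = Complex.exp (Complex.I * N * (x + y * Complex.I)) := ⟨_, rfl⟩
  have hqn : ‖q‖ = Real.exp (-(N * y)) := by
    rw [hq, Complex.norm_exp]
    congr 1
    simp
  have hqh : ‖q‖ ≤ 1 / 2 := by
    rw [hqn]
    have := Real.exp_pos (-(N * y))
    nlinarith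
  have hqK : ‖q‖ ≤ 1 / (N : ℝ) ^ K := by
    rw [hqn, le_div_iff₀ (by positivity)]
    linarith
  have hq1 : 1 - q ≠ 0 := by
    intro h
    have : q = 1 := by linear_combination -h
    rw [this, norm_one] at hqh
    norm_num at hqh
  have hlog : ‖Complex.log (1 - q)‖ ≤ 2 * ‖q‖ := by
    have h1 := Complex.norm_log_one_add_half_le_self (z := -q) (by rwa [norm_neg])
    rw [norm_neg] at h1
    rw [sub_eq_add_neg]
    linarith [norm_nonneg q]
  refine ⟨-2 * Complex.log (1 - q), ?_, ?_⟩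
  · rw [norm_mul, norm_neg]
    have : ‖(2 : ℂ)‖ = 2 := by norm_num
    rw [this]
    have h4 : 4 / (N : ℝ) ^ K = 4 * (1 / (N : ℝ) ^ K) := by ring
    rw [h4]
    linarith
  · unfold Pool.Agent.Y391.CB.kN
    rw [← hq]
    simp only [cst, zero_div, Finset.sum_const_zero, add_zero]
    rw [Complex.exp_add]
    have e1 : Complex.exp ((N : ℂ) * (Complex.I * (x : ℂ) - y)) = q := by
      rw [hq]
      congr 1
      linear_combination (-(N : ℂ) * y) * Complex.I_sq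
    have e2 : Complex.exp (-2 * Complex.log (1 - q)) = ((1 - q) ^ 2)⁻¹ := by
      have : -2 * Complex.log (1 - q) = -(Complex.log (1 - q) + Complex.log (1 - q)) := by ring
      rw [this, Complex.exp_neg, Complex.exp_add, Complex.exp_log hq1]
      ring
    rw [e1, e2]
    rfl

end fac

/-! ### The sine -/

theorem sin_axis {y : ℝ} (hy : 0 < y) : Complex.sin (y * Complex.I) ∈ Complex.slitPlane := by
  rw [Complex.sin_mul_I]
  right
  have h : (Complex.sinh (y : ℂ) * Complex.I).im = Real.sinh y := by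
    rw [Complex.mul_I_im, ← Complex.ofReal_sinh, Complex.ofReal_re]
  rw [h]
  exact (Real.sinh_pos_iff.2 hy).ne'

theorem lx_sin {ι : Type} [Fintype ι] {ws : ι → ℝ} {K : ℕ} {y : ℝ} (hy : 0 < y) :
    LX (fun _ => 0) ws K (fun _ _ x => Complex.sin (x + y * Complex.I)) := by
  have hc : Continuous fun z : ℂ => Complex.sin (z + y * Complex.I) := by fun_prop
  have hev : ∀ᶠ z : ℂ in 𝓝 0, Complex.sin (z + y * Complex.I) ≠ 0 := by
    have h0 : Complex.sin (0 + y * Complex.I) ≠ 0 := by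
      rw [zero_add]
      exact Complex.slitPlane_ne_zero (sin_axis hy)
    exact hc.continuousAt.eventually_ne h0
  obtain ⟨r₀, hr₀, hne⟩ := Metric.eventually_nhds_iff.1 hev
  refine lx_axis (f := fun z => Complex.sin (z + y * Complex.I))
    (L := fun z => Complex.log (Complex.sin (z + y * Complex.I))) ?_ hr₀ ?_
  · refine AnalyticAt.clog ?_ ?_
    · exact (Complex.analyticAt_sin.comp (analyticAt_id.add analyticAt_const) : _)
    · rw [zero_add]
      exact sin_axis hy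
  · intro x hx
    rw [Complex.exp_log]
    apply hne
    rw [dist_zero_right, Complex.norm_real, Real.norm_eq_abs]
    exact hx

/-! ### The summand -/

/-- the potential -/
noncomputable def Psi (n : ℕ) [NeZero n] (y : ℝ) (Lx : ℂ → ℂ) (Θ : ℂ → ℂ → ℂ)
    (w : (Fin n ⊕ Fin n → ℂ) × ℂ) : ℂ :=
  ∑ r : Fin n, ((Complex.I * π * ((w.1 (Sum.inl r) - w.1 (Sum.inl (r + 1))) * w.1 (Sum.inr r)) +
    (Lx (w.1 (Sum.inl r) - w.1 (Sum.inr r)) + Lx (w.1 (Sum.inl (r + 1)) - w.1 (Sum.inr r)))) +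
    (Θ (w.1 (Sum.inl (r + 1))) (w.2 + y * Complex.I) - Θ (w.1 (Sum.inr r)) (w.2 + y * Complex.I))) +
    (0 + (Complex.I * w.2 - y))

theorem cmb : Pool.Agent.Y472.K.S_CMB := by
  intro hPAR hSDX hQDX n _ hn
  obtain ⟨-, -, -, -, hy, -, hb1, hb2, -⟩ := hPAR n hn
  obtain ⟨Lx, hLx, σ, hσ, hS⟩ := hSDX
  obtain ⟨Θ, θ, hΘ, hθ, r₀, hr₀, hint, hQ⟩ := hQDX (yn n) hy
  have wl : ∀ r : Fin n, wst n (Sum.inl r) = 1 - bs n := fun r => rfl
  have wr : ∀ r : Fin n, wst n (Sum.inr r) = bs n := fun r => rfl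
  refine ⟨Psi n (yn n) Lx Θ, ?_, ?_, ?_⟩
  · -- analyticity
    unfold Psi
    have hd : ∀ r r' : Fin n, 0 < wst n (Sum.inl r) - wst n (Sum.inr r') ∧
        wst n (Sum.inl r) - wst n (Sum.inr r') < 1 := by
      intro r r'
      rw [wl, wr]
      constructor <;> linarith
    refine AnalyticAt.add ?_ (analyticAt_const.add ((analyticAt_const.mul analyticAt_snd).sub
      analyticAt_const))
    refine Finset.analyticAt_fun_sum _ fun r _ => ?_
    refine ((analyticAt_const.mul (((an_coord _ _).sub (an_coord _ _)).mul (an_coord _ _))).add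
      ((an_sd (hLx _ (hd r r).1 (hd r r).2).1).add
        (an_sd (hLx _ (hd (r + 1) r).1 (hd (r + 1) r).2).1))).add ?_
    refine (an_q (hΘ _ ?_ ?_)).sub (an_q (hΘ _ ?_ ?_))
    · rw [wl]; linarith
    · rw [wl]; linarith
    · rw [wr]; linarith
    · rw [wr]; linarith
  · -- the values at the real points
    refine ⟨min r₀ (1 / 12), lt_min hr₀ (by norm_num), ?_⟩
    intro N hN k x hk hx
    have hNr : (0 : ℝ) < N := by exact_mod_cast hN
    have hNc : (N : ℂ) ≠ 0 := by exact_mod_cast hNr.ne'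
    have hx0 : |x| < r₀ := hx.trans_le (min_le_left _ _)
    have kl : ∀ r : Fin n, 1 - bs n - 1 / 12 < (k (Sum.inl r) : ℝ) / N ∧
        (k (Sum.inl r) : ℝ) / N < 1 - bs n + 1 / 12 := by
      intro r
      have h := abs_lt.1 ((hk (Sum.inl r)).trans_le (min_le_right _ _))
      rw [wl] at h
      constructor <;> linarith [h.1, h.2]
    have kr : ∀ r : Fin n, bs n - 1 / 12 < (k (Sum.inr r) : ℝ) / N ∧
        (k (Sum.inr r) : ℝ) / N < bs n + 1 / 12 := by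
      intro r
      have h := abs_lt.1 ((hk (Sum.inr r)).trans_le (min_le_right _ _))
      rw [wr] at h
      constructor <;> linarith [h.1, h.2]
    have eL : ∀ r r' : Fin n, Lx ((((k (Sum.inl r) : ℝ) / N : ℝ) : ℂ) -
        (((k (Sum.inr r') : ℝ) / N : ℝ) : ℂ)) =
        (Lc (((k (Sum.inl r) : ℝ) - k (Sum.inr r')) / N) : ℂ) := by
      intro r r'
      have e : (((k (Sum.inl r) : ℝ) / N : ℝ) : ℂ) - (((k (Sum.inr r') : ℝ) / N : ℝ) : ℂ) =
          ((((k (Sum.inl r) : ℝ) - k (Sum.inr r')) / N : ℝ) : ℂ) := by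
        push_cast
        ring
      rw [e]
      have h1 := kl r
      have h2 := kr r'
      refine (hLx _ ?_ ?_).2
      · rw [sub_div]; linarith [h1.1, h2.2]
      · rw [sub_div]; linarith [h1.2, h2.1]
    have eQ : ∀ r r' : Fin n, Θ (((k (Sum.inl r) : ℝ) / N : ℝ) : ℂ) ((x : ℂ) + yn n * Complex.I) -
        Θ (((k (Sum.inr r') : ℝ) / N : ℝ) : ℂ) ((x : ℂ) + yn n * Complex.I) =
        ∫ t in ((k (Sum.inr r') : ℝ) / N)..((k (Sum.inl r) : ℝ) / N), clf x (yn n) t := by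
      intro r r'
      have h1 := kl r
      have h2 := kr r'
      exact hint _ _ x (by linarith [h1.1]) (by linarith [h1.2]) (by linarith [h2.1])
        (by linarith [h2.2]) hx0
    have eP : Psi n (yn n) Lx Θ (cst (fun i => (k i : ℝ) / N, x)) =
        ∑ r : Fin n, ((Complex.I * π * (((((k (Sum.inl r) : ℝ) / N : ℝ) : ℂ) -
          (((k (Sum.inl (r + 1)) : ℝ) / N : ℝ) : ℂ)) * (((k (Sum.inr r) : ℝ) / N : ℝ) : ℂ)) +
        ((Lc (((k (Sum.inl r) : ℝ) - k (Sum.inr r)) / N) : ℂ) +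
          (Lc (((k (Sum.inl (r + 1)) : ℝ) - k (Sum.inr r)) / N) : ℂ))) +
        ∫ t in ((k (Sum.inr r) : ℝ) / N)..((k (Sum.inl (r + 1)) : ℝ) / N), clf x (yn n) t) +
        (0 + (Complex.I * (x : ℂ) - yn n)) := by
      unfold Psi
      simp only [cst]
      congr 1
      refine Finset.sum_congr rfl fun r _ => ?_
      rw [eL, eL, eQ]
    rw [eP]
    unfold Xe
    rw [Finset.sum_add_distrib, Finset.sum_add_distrib, Finset.mul_sum]
    have e3 : ∑ r : Fin n, Complex.I * π * (((((k (Sum.inl r) : ℝ) / N : ℝ) : ℂ) -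
          (((k (Sum.inl (r + 1)) : ℝ) / N : ℝ) : ℂ)) * (((k (Sum.inr r) : ℝ) / N : ℝ) : ℂ)) =
        ∑ r : Fin n, Complex.I * π / (N : ℂ) ^ 2 *
          (((k (Sum.inl r) : ℂ) - k (Sum.inl (r + 1))) * k (Sum.inr r)) := by
      refine Finset.sum_congr rfl fun r _ => ?_
      push_cast
      field_simp
    rw [e3]
    ring
  · -- the expansion
    intro K
    have hd : ∀ r r' : Fin n, 0 < wst n (Sum.inl r) - wst n (Sum.inr r') ∧
        wst n (Sum.inl r) - wst n (Sum.inr r') < 1 := by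
      intro r r'
      rw [wl, wr]
      constructor <;> linarith
    have h1 : ∀ r ∈ (Finset.univ : Finset (Fin n)),
        LX (fun w : (Fin n ⊕ Fin n → ℂ) × ℂ =>
          ((Complex.I * π * ((w.1 (Sum.inl r) - w.1 (Sum.inl (r + 1))) * w.1 (Sum.inr r)) +
          (Lx (w.1 (Sum.inl r) - w.1 (Sum.inr r)) + Lx (w.1 (Sum.inl (r + 1)) - w.1 (Sum.inr r)))) +
          (Θ (w.1 (Sum.inl (r + 1))) (w.2 + yn n * Complex.I) -
            Θ (w.1 (Sum.inr r)) (w.2 + yn n * Complex.I)))) (wst n) K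
          (fun N k x => (vN N ^ (((k (Sum.inl r) : ℤ) - k (Sum.inl (r + 1))) * k (Sum.inr r)) *
            ((((√(N : ℝ) : ℝ) : ℂ) / (Sd N (k (Sum.inl r) - k (Sum.inr r)) : ℂ)) *
            (((√(N : ℝ) : ℝ) : ℂ) / (Sd N (k (Sum.inl (r + 1)) - k (Sum.inr r)) : ℂ)))) *
            Pq N (k (Sum.inr r)) (k (Sum.inl (r + 1))) (x + yn n * Complex.I)) := by
      intro r _
      refine lx_mul (lx_mul (lx_v _ _ _) (lx_mul ?_ ?_)) ?_
      · exact lx_sd hσ hS _ _ (hd r r).1 (hd r r).2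
      · exact lx_sd hσ hS _ _ (hd (r + 1) r).1 (hd (r + 1) r).2
      · refine lx_q hr₀ hθ hQ _ _ ?_ ?_ ?_
        · rw [wr]; linarith
        · rw [wl, wr]; linarith
        · rw [wl]; linarith
    have h2 := lx_mul (lx_prod Finset.univ _ _ h1) (lx_mul (lx_sin hy) (lx_k hy))
    refine lx_congr h2 (fun w => rfl) ?_
    filter_upwards with N k x
    unfold TT co Qc
    have hN : (N : ℂ) ^ n = ∏ _r : Fin n, (((√(N : ℝ) : ℝ) : ℂ) * ((√(N : ℝ) : ℝ) : ℂ)) := by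
      rw [Finset.prod_const, Finset.card_univ, Fintype.card_fin, ← Complex.ofReal_mul,
        Real.mul_self_sqrt (Nat.cast_nonneg N), Complex.ofReal_natCast]
    rw [hN]
    have e : ∀ A B C D E : ℂ, A * (B * (C * D * E)) = (A * B * D) * (C * E) := by
      intro A B C D E; ring
    rw [e, ← Finset.prod_mul_distrib, ← Finset.prod_mul_distrib]
    congr 1
    refine Finset.prod_congr rfl fun r _ => ?_
    ring

end Pool.Agent.Y363.TKX
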